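import Mathlib
import Pool.Agent.Y421.LJ.A

set_option autoImplicit false

/-!
Problem MP_526336_an, Q1 and Q2, negative answers in every density `κ ≥ ℵ₂` (the whole range in
which they can fail): there is an Asplund space of density `κ` such that for no equivalent norm
the bidual ball is Valdivia in the weak-star topology, and such that for no equivalent norm the
dual has a countably 1-norming Markushevich basis.
-/

namespace Pool.Agent.Results.MP_526336_an.EveryDensityFromAlephTwo

open Topology

universe v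

/-- A real normed space is Asplund: every separable subspace has a separable dual. -/
def IsAsplund (X : Type) [NormedAddCommGroup X] [NormedSpace ℝ X] : Prop :=
  ∀ S : Submodule ℝ X, TopologicalSpace.SeparableSpace S →
    TopologicalSpace.SeparableSpace (StrongDual ℝ S)

/-- The density of `X` is `κ`: some dense set has at most `κ` elements, and every dense set has
at least `κ` elements. -/
def HasDensity (X : Type) [NormedAddCommGroup X] (κ : Cardinal.{0}) : Prop :=
  (∃ S : Set X, Dense S ∧ Cardinal.mk S ≤ κ) ∧ ∀ S : Set X, Dense S → κ ≤ Cardinal.mk S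

/-- `A` is a `Σ`-subset of `K`: for some set `Γ` there is a homeomorphic embedding
`h : K → ℝ^Γ` such that `A` consists of the points whose image has countable support. -/
def IsSigmaSubset (K : Type) [TopologicalSpace K] (A : Set K) : Prop :=
  ∃ (Γ : Type v) (h : K → Γ → ℝ), IsEmbedding h ∧ A = {x | {γ | h x γ ≠ 0}.Countable}

/-- `K` is a Valdivia compact space: compact with a dense `Σ`-subset. -/
def IsValdivia (K : Type) [TopologicalSpace K] : Prop :=
  CompactSpace K ∧ ∃ A : Set K, IsSigmaSubset.{v} K A ∧ Dense A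

/-- The bidual `Y**` as a set of functionals on `Y*`, with the weak-star topology
`σ(Y**, Y*)`. -/
abbrev WeakBidual (Y : Type) [NormedAddCommGroup Y] [NormedSpace ℝ Y] : Type :=
  WeakDual ℝ (StrongDual ℝ Y)

/-- The closed unit ball of the bidual `Y**`, with the weak-star topology. -/
abbrev BidualBall (Y : Type) [NormedAddCommGroup Y] [NormedSpace ℝ Y] : Type :=
  {Φ : WeakBidual Y // ‖WeakDual.toStrongDual Φ‖ ≤ 1}

/-- The bidual ball of `Y` is Valdivia in the weak-star topology. -/
def ValdiviaBidualBall (Y : Type) [NormedAddCommGroup Y] [NormedSpace ℝ Y] : Prop :=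
  IsValdivia.{v} (BidualBall Y)

/-- `Z` has a countably 1-norming Markushevich basis `(y γ, z γ)`: biorthogonal, the `y γ` span a
dense subspace, the `z γ` separate the points, and `‖x‖` is the supremum of the `|φ x|`, `φ` in
the unit ball with `{γ | φ (y γ) ≠ 0}` countable. -/
def HasCountablyNormingBasis (Z : Type) [NormedAddCommGroup Z] [NormedSpace ℝ Z] : Prop :=
  ∃ (Γ : Type v) (y : Γ → Z) (z : Γ → StrongDual ℝ Z),
    (∀ γ, z γ (y γ) = 1) ∧ (∀ α β, α ≠ β → z α (y β) = 0) ∧
    Dense (Submodule.span ℝ (Set.range y) : Set Z) ∧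
    (∀ x : Z, (∀ γ, z γ x = 0) → x = 0) ∧
    ∀ x : Z, IsLUB {t : ℝ | ∃ φ : StrongDual ℝ Z, {γ | φ (y γ) ≠ 0}.Countable ∧ ‖φ‖ ≤ 1 ∧
      t = |φ x|} ‖x‖

/-- `Y` is `X` with an equivalent norm: there is a linear homeomorphism from `Y` onto `X`. -/
def IsRenormingOf (Y X : Type) [NormedAddCommGroup Y] [NormedSpace ℝ Y]
    [NormedAddCommGroup X] [NormedSpace ℝ X] : Prop :=
  Nonempty (Y ≃L[ℝ] X)

/-- No equivalent norm on `X` has a Valdivia bidual ball. -/
def NoValdiviaRenorming (X : Type) [NormedAddCommGroup X] [NormedSpace ℝ X] : Prop :=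
  ∀ (Y : Type) [NormedAddCommGroup Y] [NormedSpace ℝ Y],
    IsRenormingOf Y X → ¬ ValdiviaBidualBall.{v} Y

/-- For no equivalent norm on `X` the dual of `X`, with the dual norm, has a countably 1-norming
Markushevich basis. -/
def NoCountablyNormingRenorming (X : Type) [NormedAddCommGroup X] [NormedSpace ℝ X] : Prop :=
  ∀ (Y : Type) [NormedAddCommGroup Y] [NormedSpace ℝ Y],
    IsRenormingOf Y X → ¬ HasCountablyNormingBasis.{v} (StrongDual ℝ Y)

/-- the functionals with countable support -/
def countableSupport {Z : Type} [NormedAddCommGroup Z] [NormedSpace ℝ Z] {Γ : Type v}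
    (y : Γ → Z) : Submodule ℝ (StrongDual ℝ Z) where
  carrier := {φ | {γ | φ (y γ) ≠ 0}.Countable}
  add_mem' := by
    intro φ ψ hφ hψ
    refine (Set.Countable.union hφ hψ).mono fun γ hγ => ?_
    by_contra hcon
    simp only [Set.mem_union, Set.mem_ofPred_eq, not_or, not_not] at hcon
    apply hγ
    show φ (y γ) + ψ (y γ) = 0
    rw [hcon.1, hcon.2, add_zero]
  zero_mem' := by
    have : {γ | (0 : StrongDual ℝ Z) (y γ) ≠ 0} = ∅ := by
      ext γ
      simp
    show {γ | (0 : StrongDual ℝ Z) (y γ) ≠ 0}.Countable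
    rw [this]
    exact Set.countable_empty
  smul_mem' := by
    intro c φ hφ
    refine Set.Countable.mono (fun γ hγ => ?_) hφ
    intro h0
    apply hγ
    show c * φ (y γ) = 0
    rw [h0, mul_zero]

open Pool.Agent.Helper176.LJ in
/-- Let `κ ≥ ℵ₂`. There is an Asplund space `X` (a long James space) of density `κ` such that for
no equivalent norm on `X` the bidual unit ball is Valdivia in the weak-star topology, and such
that for no equivalent norm on `X` the dual has a countably 1-norming Markushevich basis. -/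
theorem result (κ : Cardinal.{0}) (hκ : Cardinal.aleph 2 ≤ κ) :
    ∃ (X : Type) (_ : NormedAddCommGroup X) (_ : NormedSpace ℝ X),
      CompleteSpace X ∧ IsAsplund X ∧ HasDensity X κ ∧
      NoValdiviaRenorming.{v} X ∧ NoCountablyNormingRenorming.{v} X := by
  have h2 : Order.succ (Cardinal.aleph 1) = Cardinal.aleph 2 := by
    rw [Cardinal.succ_aleph, one_add_one_eq_two]
  have hκ' : Order.succ (Cardinal.aleph 1) ≤ κ := h2.le.trans hκ
  obtain ⟨L, i1, i2, i3, i4, hL, hcof⟩ := Pool.Agent.Y421.LJ.exists_L κ hκ'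
  have hL0 : Cardinal.aleph0 ≤ Cardinal.mk L := by
    rw [hL]
    exact (Cardinal.aleph0_le_aleph 2).trans hκ
  refine ⟨LJS L, inferInstance, inferInstance, inferInstance, ?_, ⟨?_, ?_⟩, ?_, ?_⟩
  · intro S hS
    exact (ljData L).separable_dual S hS
  · exact ⟨_, Pool.Agent.Y421.LJ.dense_comb (ljData L),
      (Pool.Agent.Y421.LJ.mk_comb_le (ljData L) hL0).trans hL.le⟩
  · intro S hS
    rw [← hL]
    exact Pool.Agent.Y421.LJ.mk_le_of_dense (ljData L) (Pool.Agent.Y421.LJ.norm_evF_le L) S hS
  · rintro Y _ _ ⟨e⟩ ⟨-, A, ⟨Γ, h, hemb, rfl⟩, hd⟩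
    have hY : CompleteSpace Y :=
      (completeSpace_congr (e := e.toEquiv) e.isUniformEmbedding).2 inferInstance
    exact ((ljData L).transfer e).contra hemb.continuous hemb.injective hd hcof
  · rintro Y _ _ ⟨e⟩ ⟨Γ, y, z, -, -, hspan, -, hlub⟩
    have hY : CompleteSpace Y :=
      (completeSpace_congr (e := e.toEquiv) e.isUniformEmbedding).2 inferInstance
    refine ((ljData L).transfer e).contra (h := fun Φ γ => Φ.1 (y γ)) ?_ ?_ ?_ hcof
    · exact continuous_pi fun γ => continuous_ball_eval (y γ)
    · intro Φ Ψ hΦΨ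
      apply Subtype.ext
      have h1 : WeakDual.toStrongDual Φ.1 = WeakDual.toStrongDual Ψ.1 := by
        refine ContinuousLinearMap.ext_on hspan ?_
        rintro _ ⟨γ, rfl⟩
        exact congrFun hΦΨ γ
      exact h1
    · refine Pool.Agent.Y421.LJ.norming_dense (countableSupport y) fun ψ v hv => ?_
      refine (hlub ψ).2 ?_
      rintro _ ⟨φ, h1, h3, rfl⟩
      exact hv φ h1 h3

end Pool.Agent.Results.MP_526336_an.EveryDensityFromAlephTwo
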